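import Mathlib

/-!
# A matching meeting many given pairs
-/

set_option autoImplicit false
set_option linter.unusedSectionVars false
set_option linter.unusedVariables false

namespace Pool.Agent.H85A

open SimpleGraph

/-- The theorem of Tutte in the form of families of odd sets (from `H168DD.tutte_fam`). -/
lemma tutte_fam {α : Type*} [Fintype α] [DecidableEq α] (H : SimpleGraph α)
    (hcond : ∀ (A : Finset α) (F : Finset (Finset α)), (∀ O ∈ F, Odd O.card) →
      (∀ O ∈ F, ∀ O' ∈ F, O ≠ O' → Disjoint O O') → (∀ O ∈ F, Disjoint O A) →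
      (∀ O ∈ F, ∀ x ∈ O, ∀ y, H.Adj x y → y ∈ O ∨ y ∈ A) → F.card ≤ A.card) :
    ∃ m : α → α, ∀ x, m (m x) = x ∧ H.Adj x (m x) := by
  classical
  have hM : ∃ M : H.Subgraph, M.IsPerfectMatching := by
    rw [SimpleGraph.tutte]
    intro u hu
    unfold IsTutteViolator at hu
    set G' := ((⊤ : H.Subgraph).deleteVerts u).coe with hG'
    have hverts : ∀ x, x ∈ ((⊤ : H.Subgraph).deleteVerts u).verts ↔ x ∉ u := by
      intro x; simp
    let g : G'.ConnectedComponent → Finset α := fun c => (Subtype.val '' c.supp).toFinset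
    have hg : ∀ c x, x ∈ g c ↔ ∃ h : x ∈ ((⊤ : H.Subgraph).deleteVerts u).verts,
        G'.connectedComponentMk ⟨x, h⟩ = c := by
      intro c x
      simp only [g, Set.mem_toFinset, Set.mem_image, ConnectedComponent.mem_supp_iff]
      constructor
      · rintro ⟨y, hy, rfl⟩; exact ⟨y.2, hy⟩
      · rintro ⟨h, hx⟩; exact ⟨⟨x, h⟩, hx, rfl⟩
    have hginj : Function.Injective g := by
      intro c c' hcc
      obtain ⟨x, hx⟩ := c.nonempty_supp
      have : x.1 ∈ g c := (hg c x.1).2 ⟨x.2, hx⟩
      rw [hcc] at this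
      obtain ⟨h, hx'⟩ := (hg c' x.1).1 this
      exact hx.symm.trans hx'
    have hcard : ∀ c, (g c).card = c.supp.ncard := by
      intro c
      simp only [g]
      rw [← Set.ncard_eq_toFinset_card', Set.ncard_image_of_injective _ Subtype.val_injective]
    set F := (G'.oddComponents.toFinset).image g with hF
    have hFcard : F.card = G'.oddComponents.ncard := by
      rw [hF, Finset.card_image_of_injective _ hginj, Set.ncard_eq_toFinset_card']
    have key := hcond u.toFinset F ?_ ?_ ?_ ?_
    · rw [hFcard, ← Set.ncard_eq_toFinset_card'] at key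
      omega
    · intro O hO
      obtain ⟨c, hc, rfl⟩ := Finset.mem_image.1 hO
      rw [hcard]
      simpa using hc
    · intro O hO O' hO' hne
      obtain ⟨c, hc, rfl⟩ := Finset.mem_image.1 hO
      obtain ⟨c', hc', rfl⟩ := Finset.mem_image.1 hO'
      rw [Finset.disjoint_left]
      intro x hx hx'
      obtain ⟨h, e⟩ := (hg c x).1 hx
      obtain ⟨h', e'⟩ := (hg c' x).1 hx'
      exact hne (by rw [← e, ← e'])
    · intro O hO
      obtain ⟨c, hc, rfl⟩ := Finset.mem_image.1 hO
      rw [Finset.disjoint_left]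
      intro x hx hxu
      obtain ⟨h, e⟩ := (hg c x).1 hx
      exact (hverts x).1 h (by simpa using hxu)
    · intro O hO x hx y hxy
      obtain ⟨c, hc, rfl⟩ := Finset.mem_image.1 hO
      obtain ⟨h, e⟩ := (hg c x).1 hx
      by_cases hy : y ∈ u
      · right; simpa using hy
      · left
        have hy' := (hverts y).2 hy
        refine (hg c y).2 ⟨hy', ?_⟩
        rw [← e]
        apply ConnectedComponent.sound
        apply Adj.reachable
        rw [hG']
        simp only [Subgraph.coe_adj, Subgraph.deleteVerts_adj, Subgraph.top_adj,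
          Subgraph.verts_top, Set.mem_univ, true_and]
        exact ⟨hy, (hverts x).1 h, hxy.symm⟩
  obtain ⟨M, hM⟩ := hM
  rw [Subgraph.isPerfectMatching_iff] at hM
  choose m hm hm' using hM
  refine ⟨m, fun x => ⟨?_, (hm x).adj_sub⟩⟩
  exact ((hm' (m x) x (hm x).symm)).symm

variable {V κ : Type} [Fintype V] [DecidableEq V] [Fintype κ] [DecidableEq κ]

/-- the auxiliary graph: outside `X` everything is joined, and a vertex `v` of `X` is joined to its
neighbours in `H` and to `pr v` -/
def auxG (H : SimpleGraph V) (X : Finset V) (pr : V → κ) : SimpleGraph (V ⊕ κ) where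
  Adj
    | Sum.inl a, Sum.inl b => H.Adj a b ∨ (a ≠ b ∧ a ∉ X ∧ b ∉ X)
    | Sum.inl a, Sum.inr k => a ∉ X ∨ pr a = k
    | Sum.inr k, Sum.inl a => a ∉ X ∨ pr a = k
    | Sum.inr i, Sum.inr j => i ≠ j
  symm := ⟨by
    rintro (a | i) (b | j) h
    · rcases h with h | h
      · exact Or.inl h.symm
      · exact Or.inr ⟨h.1.symm, h.2.2, h.2.1⟩
    · exact h
    · exact h
    · exact Ne.symm h⟩
  loopless := ⟨by
    rintro (a | i) h
    · rcases h with h | h
      · exact H.irrefl h
      · exact h.1 rfl
    · exact h rfl⟩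

/-- the elements outside `X` -/
def NX (X : Finset V) : V ⊕ κ → Prop
  | Sum.inl a => a ∉ X
  | Sum.inr _ => True

lemma NX_clique (H : SimpleGraph V) (X : Finset V) (pr : V → κ) (x y : V ⊕ κ) (hx : NX X x)
    (hy : NX X y) (hne : x ≠ y) : (auxG H X pr).Adj x y := by
  rcases x with a | i <;> rcases y with b | j
  · exact Or.inr ⟨fun h => hne (by rw [h]), hx, hy⟩
  · exact Or.inl hx
  · exact Or.inl hy
  · exact fun h => hne (by rw [h])

lemma not_NX (X : Finset V) (x : V ⊕ κ) (hx : ¬ NX X x) : ∃ v ∈ X, x = Sum.inl v := by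
  rcases x with a | i
  · exact ⟨a, by_contra fun h => hx h, rfl⟩
  · exact absurd trivial hx

/-- the count for families of odd sets inside `X` -/
lemma inner_bound (H : SimpleGraph V) [DecidableRel H.Adj] (X : Finset V) (pr : V → κ) (D : ℕ)
    (hD : 4 ≤ D)
    (hfib : ∀ k, (X.filter (fun v => pr v = k)).card ≤ 2)
    (hX : ∀ v ∈ X, D ≤ H.degree v + 2)
    (hdeg : ∀ v, H.degree v ≤ D)
    (A : Finset (V ⊕ κ)) (F : Finset (Finset (V ⊕ κ))) (hodd : ∀ O ∈ F, Odd O.card)
    (hdisj : ∀ O ∈ F, ∀ O' ∈ F, O ≠ O' → Disjoint O O') (hdA : ∀ O ∈ F, Disjoint O A)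
    (hclos : ∀ O ∈ F, ∀ x ∈ O, ∀ y, (auxG H X pr).Adj x y → y ∈ O ∨ y ∈ A)
    (hin : ∀ O ∈ F, ∀ x ∈ O, ¬ NX X x) : F.card ≤ A.card := by
  classical
  have hA : A.card = A.toLeft.card + A.toRight.card := (Finset.card_toLeft_add_card_toRight).symm
  -- the union
  set S : Finset V := X.filter (fun v => ∃ O ∈ F, Sum.inl v ∈ O) with hS
  have hSU : (F.biUnion id).card ≤ S.card := by
    have h1 : F.biUnion id ⊆ S.image Sum.inl := by
      intro x hx
      obtain ⟨O, hO, hxO⟩ := Finset.mem_biUnion.1 hx
      obtain ⟨v, hv, rfl⟩ := not_NX X x (hin O hO x hxO)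
      exact Finset.mem_image.2 ⟨v, Finset.mem_filter.2 ⟨hv, O, hO, hxO⟩, rfl⟩
    exact (Finset.card_le_card h1).trans Finset.card_image_le
  have hUc : (F.biUnion id).card = ∑ O ∈ F, O.card := by
    rw [Finset.card_biUnion]
    · rfl
    · intro O hO O' hO' hne
      exact hdisj O hO O' hO' hne
  have hS2 : S.card ≤ 2 * A.toRight.card := by
    have h1 : S.card ≤ 2 * (S.image pr).card := by
      apply Finset.card_le_mul_card_image
      intro k _
      refine (Finset.card_le_card ?_).trans (hfib k)
      intro v hv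
      rw [Finset.mem_filter] at hv ⊢
      exact ⟨(Finset.mem_filter.1 hv.1).1, hv.2⟩
    have h2 : S.image pr ⊆ A.toRight := by
      intro k hk
      obtain ⟨v, hv, rfl⟩ := Finset.mem_image.1 hk
      obtain ⟨hvX, O, hO, hvO⟩ := Finset.mem_filter.1 hv
      rw [Finset.mem_toRight]
      rcases hclos O hO _ hvO (Sum.inr (pr v)) (Or.inr rfl) with h | h
      · exact absurd trivial (hin O hO _ h)
      · exact h
    have h3 := Finset.card_le_card h2
    omega
  -- singletons
  set F1 := F.filter (fun O => O.card = 1) with hF1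
  set F3 := F.filter (fun O => ¬ O.card = 1) with hF3
  have hF13 : F1.card + F3.card = F.card := Finset.card_filter_add_card_filter_not _
  have hsum : F1.card + 3 * F3.card ≤ ∑ O ∈ F, O.card := by
    have e : ∑ O ∈ F, O.card = ∑ O ∈ F1, O.card + ∑ O ∈ F3, O.card :=
      (Finset.sum_filter_add_sum_filter_not F (fun O => O.card = 1) _).symm
    have e1 : F1.card ≤ ∑ O ∈ F1, O.card := by
      rw [Finset.card_eq_sum_ones]
      apply Finset.sum_le_sum
      intro O hO
      rw [(Finset.mem_filter.1 hO).2]
    have e3 : 3 * F3.card ≤ ∑ O ∈ F3, O.card := by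
      rw [mul_comm, ← smul_eq_mul, ← Finset.sum_const]
      apply Finset.sum_le_sum
      intro O hO
      obtain ⟨h1, h2⟩ := Finset.mem_filter.1 hO
      obtain ⟨k, hk⟩ := hodd O h1
      omega
    omega
  set T : Finset V := X.filter (fun v => ({Sum.inl v} : Finset (V ⊕ κ)) ∈ F) with hT
  have hF1T : F1.card ≤ T.card := by
    have h1 : F1 ⊆ T.image (fun v => ({Sum.inl v} : Finset (V ⊕ κ))) := by
      intro O hO
      obtain ⟨hOF, hO1⟩ := Finset.mem_filter.1 hO
      obtain ⟨x, rfl⟩ := Finset.card_eq_one.1 hO1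
      obtain ⟨v, hv, rfl⟩ := not_NX X x (hin _ hOF x (Finset.mem_singleton_self x))
      exact Finset.mem_image.2 ⟨v, Finset.mem_filter.2 ⟨hv, hOF⟩, rfl⟩
    exact (Finset.card_le_card h1).trans Finset.card_image_le
  have hcount : ∑ v ∈ T, H.degree v ≤ ∑ w ∈ A.toLeft, H.degree w := by
    have e1 : ∀ v ∈ T, H.degree v = (A.toLeft.filter (fun w => H.Adj v w)).card := by
      intro v hv
      obtain ⟨hvX, hvF⟩ := Finset.mem_filter.1 hv
      rw [← SimpleGraph.card_neighborFinset_eq_degree]
      congr 1
      ext w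
      rw [SimpleGraph.mem_neighborFinset, Finset.mem_filter, Finset.mem_toLeft]
      constructor
      · intro h
        refine ⟨?_, h⟩
        rcases hclos _ hvF (Sum.inl v) (Finset.mem_singleton_self _) (Sum.inl w) (Or.inl h) with h' | h'
        · rw [Finset.mem_singleton] at h'
          exact absurd (Sum.inl_injective h').symm h.ne
        · exact h'
      · exact fun h => h.2
    have e2 : ∀ w ∈ A.toLeft, (T.filter (fun v => H.Adj v w)).card ≤ H.degree w := by
      intro w _
      rw [← SimpleGraph.card_neighborFinset_eq_degree]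
      apply Finset.card_le_card
      intro v hv
      rw [SimpleGraph.mem_neighborFinset]
      exact (Finset.mem_filter.1 hv).2.symm
    calc ∑ v ∈ T, H.degree v = ∑ v ∈ T, (A.toLeft.filter (fun w => H.Adj v w)).card :=
          Finset.sum_congr rfl e1
      _ = ∑ w ∈ A.toLeft, (T.filter (fun v => H.Adj v w)).card :=
          Finset.sum_card_bipartiteAbove_eq_sum_card_bipartiteBelow _
      _ ≤ ∑ w ∈ A.toLeft, H.degree w := Finset.sum_le_sum e2
  have hT1 : (D - 2) * T.card ≤ ∑ v ∈ T, H.degree v := by
    rw [mul_comm, ← smul_eq_mul, ← Finset.sum_const]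
    apply Finset.sum_le_sum
    intro v hv
    have := hX v (Finset.mem_filter.1 hv).1
    omega
  have hT2 : ∑ w ∈ A.toLeft, H.degree w ≤ (D - 2) * (2 * A.toLeft.card) := by
    have h1 : ∑ w ∈ A.toLeft, H.degree w ≤ A.toLeft.card * D := by
      rw [← smul_eq_mul, ← Finset.sum_const]
      exact Finset.sum_le_sum fun w _ => hdeg w
    refine h1.trans ?_
    have h2 : D ≤ (D - 2) * 2 := by omega
    calc A.toLeft.card * D ≤ A.toLeft.card * ((D - 2) * 2) := Nat.mul_le_mul_left _ h2
      _ = (D - 2) * (2 * A.toLeft.card) := by ring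
  have hT3 : T.card ≤ 2 * A.toLeft.card := by
    have h1 : (D - 2) * T.card ≤ (D - 2) * (2 * A.toLeft.card) := (hT1.trans hcount).trans hT2
    exact Nat.le_of_mul_le_mul_left h1 (by omega)
  omega

/-- **A matching meeting one of each pair.** -/
theorem cover (H : SimpleGraph V) [DecidableRel H.Adj] (X : Finset V) (pr : V → κ) (D : ℕ)
    (hD : 4 ≤ D) (heven : Even (Fintype.card V + Fintype.card κ))
    (hfib : ∀ k, (X.filter (fun v => pr v = k)).card ≤ 2)
    (hX : ∀ v ∈ X, D ≤ H.degree v + 2)
    (hdeg : ∀ v, H.degree v ≤ D) :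
    ∃ m : V → V, (∀ v, m (m v) = v) ∧ (∀ v, m v ≠ v → H.Adj v (m v)) ∧
      (∀ u ∈ X, ∀ v ∈ X, u ≠ v → pr u = pr v → m u ≠ u ∨ m v ≠ v) := by
  classical
  have hm : ∃ m : (V ⊕ κ) → (V ⊕ κ), ∀ x, m (m x) = x ∧ (auxG H X pr).Adj x (m x) := by
    apply tutte_fam
    intro A F hodd hdisj hdA hclos
    by_cases hall : ∀ O ∈ F, ∀ x ∈ O, ¬ NX X x
    · exact inner_bound H X pr D hD hfib hX hdeg A F hodd hdisj hdA hclos hall
    push Not at hall
    obtain ⟨O0, hO0, a, haO, haN⟩ := hall
    have hothers : ∀ O ∈ F.erase O0, ∀ x ∈ O, ¬ NX X x := by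
      intro O hO x hx hxN
      obtain ⟨hne, hOF⟩ := Finset.mem_erase.1 hO
      have hd := hdisj O hOF O0 hO0 hne
      have hxa : a ≠ x := by
        rintro rfl
        exact Finset.disjoint_left.1 hd hx haO
      rcases hclos O0 hO0 a haO x (NX_clique H X pr a x haN hxN hxa) with h | h
      · exact Finset.disjoint_left.1 hd hx h
      · exact Finset.disjoint_left.1 (hdA O hOF) hx h
    have hsub : F.erase O0 ⊆ F := Finset.erase_subset _ _
    have hb := inner_bound H X pr D hD hfib hX hdeg A (F.erase O0)
      (fun O hO => hodd O (hsub hO)) (fun O hO O' hO' => hdisj O (hsub hO) O' (hsub hO'))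
      (fun O hO => hdA O (hsub hO)) (fun O hO => hclos O (hsub hO)) hothers
    have hcF : (F.erase O0).card + 1 = F.card := Finset.card_erase_add_one hO0
    by_contra hlt
    push Not at hlt
    have hFA : F.card = A.card + 1 := by omega
    -- the rest
    set R : Finset (V ⊕ κ) := Finset.univ \ (A ∪ F.biUnion id) with hR
    have hmemR : ∀ x, x ∈ R ↔ x ∉ A ∧ ∀ O ∈ F, x ∉ O := by
      intro x
      simp only [hR, Finset.mem_sdiff, Finset.mem_univ, true_and, Finset.mem_union,
        Finset.mem_biUnion, id, not_or, not_exists, not_and]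
    have hRcl : ∀ x ∈ R, ∀ y, (auxG H X pr).Adj x y → y ∈ R ∨ y ∈ A := by
      intro x hx y hxy
      by_contra hcon
      push Not at hcon
      obtain ⟨h1, h2⟩ := hcon
      rw [hmemR] at h1
      push Not at h1
      obtain ⟨O, hO, hyO⟩ := h1 h2
      rcases hclos O hO y hyO x hxy.symm with h | h
      · exact ((hmemR x).1 hx).2 O hO h
      · exact ((hmemR x).1 hx).1 h
    have hRin : ∀ x ∈ R, ¬ NX X x := by
      intro x hx hxN
      have hxa : a ≠ x := by
        rintro rfl
        exact ((hmemR _).1 hx).2 O0 hO0 haO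
      rcases hclos O0 hO0 a haO x (NX_clique H X pr a x haN hxN hxa) with h | h
      · exact ((hmemR x).1 hx).2 O0 hO0 h
      · exact ((hmemR x).1 hx).1 h
    have hRdisj : ∀ O ∈ F, Disjoint R O := by
      intro O hO
      rw [Finset.disjoint_left]
      intro x hx hxO
      exact ((hmemR x).1 hx).2 O hO hxO
    rcases Nat.even_or_odd R.card with hRe | hRo
    · -- parity
      have e1 : (Finset.univ : Finset (V ⊕ κ)).card = A.card + ∑ O ∈ F, O.card + R.card := by
        have h1 : (F.biUnion id).card = ∑ O ∈ F, O.card := by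
          rw [Finset.card_biUnion]
          · rfl
          · intro O hO O' hO' hne
            exact hdisj O hO O' hO' hne
        have h2 : Disjoint A (F.biUnion id) := by
          rw [Finset.disjoint_biUnion_right]
          intro O hO
          exact (hdA O hO).symm
        rw [hR, ← h1, ← Finset.card_union_of_disjoint h2, add_comm,
          Finset.card_sdiff_add_card_eq_card (Finset.subset_univ _)]
      rw [Finset.card_univ, Fintype.card_sum] at e1
      have e2 : Odd (∑ O ∈ F, O.card) ↔ Odd F.card := by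
        rw [Finset.odd_sum_iff_odd_card_odd]
        rw [Finset.filter_true_of_mem hodd]
      rcases Nat.even_or_odd F.card with hFe | hFo
      · have e3 : Even (∑ O ∈ F, O.card) := by
          rw [← Nat.not_odd_iff_even, e2, Nat.not_odd_iff_even]; exact hFe
        rw [e1] at heven
        obtain ⟨k1, hk1⟩ := heven
        obtain ⟨k2, hk2⟩ := hFe
        obtain ⟨k3, hk3⟩ := e3
        obtain ⟨k4, hk4⟩ := hRe
        omega
      · have e3 := e2.2 hFo
        rw [e1] at heven
        obtain ⟨k1, hk1⟩ := heven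
        obtain ⟨k2, hk2⟩ := hFo
        obtain ⟨k3, hk3⟩ := e3
        obtain ⟨k4, hk4⟩ := hRe
        omega
    · have hRne : R ∉ F.erase O0 := by
        intro hRF
        have h1 := hRdisj R (hsub hRF)
        rw [disjoint_self] at h1
        rw [Finset.bot_eq_empty] at h1
        rw [h1] at hRo
        simp at hRo
      have hb2 := inner_bound H X pr D hD hfib hX hdeg A (insert R (F.erase O0)) ?_ ?_ ?_ ?_ ?_
      · rw [Finset.card_insert_of_notMem hRne] at hb2
        omega
      · intro O hO
        rcases Finset.mem_insert.1 hO with rfl | hO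
        · exact hRo
        · exact hodd O (hsub hO)
      · intro O hO O' hO' hne
        rcases Finset.mem_insert.1 hO with rfl | hO <;> rcases Finset.mem_insert.1 hO' with rfl | hO'
        · exact absurd rfl hne
        · exact hRdisj O' (hsub hO')
        · exact (hRdisj O (hsub hO)).symm
        · exact hdisj O (hsub hO) O' (hsub hO') hne
      · intro O hO
        rcases Finset.mem_insert.1 hO with rfl | hO
        · rw [Finset.disjoint_left]
          intro x hx
          exact ((hmemR x).1 hx).1
        · exact hdA O (hsub hO)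
      · intro O hO
        rcases Finset.mem_insert.1 hO with rfl | hO
        · exact hRcl
        · exact hclos O (hsub hO)
      · intro O hO
        rcases Finset.mem_insert.1 hO with rfl | hO
        · exact hRin
        · exact hothers O hO
  obtain ⟨m', hm'⟩ := hm
  have hinj : Function.Injective m' := by
    intro x y h
    rw [← (hm' x).1, ← (hm' y).1, h]
  let m : V → V := fun v => match m' (Sum.inl v) with
    | Sum.inl w => if v ∈ X ∨ w ∈ X then w else v
    | Sum.inr _ => v
  have hml : ∀ v w, m' (Sum.inl v) = Sum.inl w → m v = if v ∈ X ∨ w ∈ X then w else v := by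
    intro v w h
    simp only [m, h]
  have hmr : ∀ v k, m' (Sum.inl v) = Sum.inr k → m v = v := by
    intro v k h
    simp only [m, h]
  have hne : ∀ v, m v ≠ v → m' (Sum.inl v) = Sum.inl (m v) ∧ (v ∈ X ∨ m v ∈ X) := by
    intro v hv
    rcases h : m' (Sum.inl v) with w | k
    · have h1 := hml v w h
      by_cases hc : v ∈ X ∨ w ∈ X
      · rw [if_pos hc] at h1
        rw [h1]
        exact ⟨rfl, hc⟩
      · rw [if_neg hc] at h1
        exact absurd h1 hv
    · exact absurd (hmr v k h) hv
  refine ⟨m, ?_, ?_, ?_⟩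
  · intro v
    by_cases hv : m v = v
    · rw [hv, hv]
    · obtain ⟨h1, h2⟩ := hne v hv
      have h3 : m' (Sum.inl (m v)) = Sum.inl v := by
        rw [← h1, (hm' _).1]
      rw [hml _ _ h3, if_pos h2.symm]
  · intro v hv
    obtain ⟨h1, h2⟩ := hne v hv
    have h3 := (hm' (Sum.inl v)).2
    rw [h1] at h3
    rcases h3 with h3 | h3
    · exact h3
    · exfalso
      rcases h2 with h2 | h2
      · exact h3.2.1 h2
      · exact h3.2.2 h2
  · intro u hu v hv huv hpr
    by_contra hcon
    push Not at hcon
    have key : ∀ w ∈ X, m w = w → m' (Sum.inl w) = Sum.inr (pr w) := by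
      intro w hw hmw
      rcases h : m' (Sum.inl w) with z | k
      · exfalso
        have h1 := hml w z h
        rw [if_pos (Or.inl hw), hmw] at h1
        have h3 := (hm' (Sum.inl w)).2
        rw [h, ← h1] at h3
        exact (auxG H X pr).irrefl h3
      · have h3 := (hm' (Sum.inl w)).2
        rw [h] at h3
        rcases h3 with h3 | h3
        · exact absurd hw h3
        · rw [h3]
    have h1 := key u hu hcon.1
    have h2 := key v hv hcon.2
    rw [hpr] at h1
    exact huv (Sum.inl_injective (hinj (h1.trans h2.symm)))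

end Pool.Agent.H85A
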