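import Mathlib
import Pool.Agent.H85A.Cover

/-!
# Colourings with a smallest last class

Let all degrees of `G` be at most `p + 1` and let `f` be a proper colouring with the colours
`0, …, p` for which the last class is as small as possible.
-/

set_option autoImplicit false
set_option linter.unusedSectionVars false
set_option linter.unusedVariables false

namespace Pool.Agent.H85A

open SimpleGraph Finset

variable {V : Type} [Fintype V] [DecidableEq V] (G : SimpleGraph V) [DecidableRel G.Adj] (p : ℕ)

/-- proper colouring with the colours `0, …, p` -/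
def PC (f : V → ℕ) : Prop := (∀ v, f v ≤ p) ∧ ∀ u v, G.Adj u v → f u ≠ f v

/-- the last class -/
def Bs (f : V → ℕ) : Finset V := univ.filter (fun v => f v = p)

/-- proper colouring with a smallest last class -/
def IsMin (f : V → ℕ) : Prop := PC G p f ∧ ∀ g, PC G p g → (Bs p f).card ≤ (Bs p g).card

variable {G p}

lemma mem_Bs {f : V → ℕ} {v : V} : v ∈ Bs p f ↔ f v = p := by simp [Bs]

lemma exists_isMin {f : V → ℕ} (hf : PC G p f) : ∃ g, IsMin G p g := by
  classical
  obtain ⟨n, hn⟩ : ∃ n, n = (Bs p f).card := ⟨_, rfl⟩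
  induction n using Nat.strong_induction_on generalizing f with
  | _ n ih =>
    by_cases h : ∀ g, PC G p g → (Bs p f).card ≤ (Bs p g).card
    · exact ⟨f, hf, h⟩
    · push Not at h
      obtain ⟨g, hg, hlt⟩ := h
      exact ih (Bs p g).card (by omega) hg rfl

/-- recolouring one vertex -/
lemma PC.update {f : V → ℕ} (hf : PC G p f) {v : V} {j : ℕ} (hj : j ≤ p)
    (h : ∀ u, G.Adj v u → f u ≠ j) : PC G p (Function.update f v j) := by
  refine ⟨fun u => ?_, fun a b hab => ?_⟩
  · by_cases hu : u = v
    · subst hu; rw [Function.update_self]; exact hj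
    · rw [Function.update_of_ne hu]; exact hf.1 u
  · by_cases ha : a = v
    · subst ha
      rw [Function.update_self, Function.update_of_ne hab.ne']
      exact (h b hab).symm
    · by_cases hb : b = v
      · subst hb
        rw [Function.update_self, Function.update_of_ne hab.ne]
        exact h a hab.symm
      · rw [Function.update_of_ne ha, Function.update_of_ne hb]
        exact hf.2 a b hab

lemma IsMin.update {f : V → ℕ} (hf : IsMin G p f) {v : V} {j : ℕ} (hv : f v < p) (hj : j < p)
    (h : ∀ u, G.Adj v u → f u ≠ j) : IsMin G p (Function.update f v j) := by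
  refine ⟨hf.1.update hj.le h, fun g hg => ?_⟩
  have e : Bs p (Function.update f v j) = Bs p f := by
    ext u
    rw [mem_Bs, mem_Bs]
    by_cases hu : u = v
    · subst hu
      rw [Function.update_self]
      omega
    · rw [Function.update_of_ne hu]
  rw [e]
  exact hf.2 g hg

/-- every vertex of the last class sees all other colours -/
lemma IsMin.see {f : V → ℕ} (hf : IsMin G p f) {b : V} (hb : f b = p) {i : ℕ} (hi : i < p) :
    ∃ u, G.Adj b u ∧ f u = i := by
  by_contra hcon
  push Not at hcon
  have h1 := hf.2 _ (hf.1.update hi.le hcon)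
  have h2 : Bs p (Function.update f b i) ⊂ Bs p f := by
    rw [Finset.ssubset_iff_of_subset]
    · refine ⟨b, mem_Bs.2 hb, ?_⟩
      rw [mem_Bs, Function.update_self]
      omega
    · intro u hu
      rw [mem_Bs] at hu ⊢
      by_cases hub : u = b
      · subst hub; exact hb
      · rwa [Function.update_of_ne hub] at hu
  have h3 := Finset.card_lt_card h2
  omega

/-- the count behind everything: at most one superfluous neighbour -/
lemma excess {f : V → ℕ} (hdeg : ∀ v, G.degree v ≤ p + 1) {b : V} (T : Finset V)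
    (hT : ∀ u ∈ T, G.Adj b u) (h : ∀ i < p, ∃ u, u ∉ T ∧ G.Adj b u ∧ f u = i) : T.card ≤ 1 := by
  have h1 : range p ⊆ ((G.neighborFinset b) \ T).image f := by
    intro i hi
    obtain ⟨u, h1, h2, h3⟩ := h i (mem_range.1 hi)
    refine mem_image.2 ⟨u, mem_sdiff.2 ⟨?_, h1⟩, h3⟩
    rwa [mem_neighborFinset]
  have h2 := (card_le_card h1).trans card_image_le
  rw [card_range] at h2
  have h3 : T ⊆ G.neighborFinset b := by
    intro u hu
    rw [mem_neighborFinset]
    exact hT u hu
  have h4 := card_sdiff_add_card_eq_card h3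
  rw [card_neighborFinset_eq_degree] at h4
  have := hdeg b
  omega

/-- no superfluous pair -/
lemma IsMin.no_two {f : V → ℕ} (hf : IsMin G p f) (hdeg : ∀ v, G.degree v ≤ p + 1) {b : V}
    (hb : f b = p) {v v' : V} (hv : G.Adj b v) (hv' : G.Adj b v') (hne : v ≠ v')
    (h1 : ∃ u, u ≠ v ∧ u ≠ v' ∧ G.Adj b u ∧ f u = f v)
    (h2 : ∃ u, u ≠ v ∧ u ≠ v' ∧ G.Adj b u ∧ f u = f v') : False := by
  have h := excess (f := f) hdeg {v, v'} (by
    intro u hu
    rw [mem_insert, mem_singleton] at hu
    rcases hu with rfl | rfl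
    · exact hv
    · exact hv') (by
    intro i hi
    have hnot : ∀ u, u ≠ v → u ≠ v' → u ∉ ({v, v'} : Finset V) := by
      intro u h1 h2 h3
      rw [mem_insert, mem_singleton] at h3
      rcases h3 with h3 | h3
      · exact h1 h3
      · exact h2 h3
    by_cases e1 : i = f v
    · obtain ⟨u, a1, a2, a3, a4⟩ := h1
      exact ⟨u, hnot u a1 a2, a3, a4.trans e1.symm⟩
    · by_cases e2 : i = f v'
      · obtain ⟨u, a1, a2, a3, a4⟩ := h2
        exact ⟨u, hnot u a1 a2, a3, a4.trans e2.symm⟩
      · obtain ⟨u, a1, a2⟩ := hf.see hb hi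
        refine ⟨u, hnot u ?_ ?_, a1, a2⟩
        · rintro rfl; exact e1 a2.symm
        · rintro rfl; exact e2 a2.symm)
  rw [card_pair hne] at h
  omega

/-- the vertices of the last class all whose neighbours of colour `i` are in `W` -/
def BW (G : SimpleGraph V) [DecidableRel G.Adj] (p : ℕ) (f : V → ℕ) (i : ℕ) (W : Finset V) :
    Finset V :=
  univ.filter (fun b => f b = p ∧ ∀ u, G.Adj b u → f u = i → u ∈ W)

lemma mem_BW {f : V → ℕ} {i : ℕ} {W : Finset V} {b : V} :
    b ∈ BW G p f i W ↔ f b = p ∧ ∀ u, G.Adj b u → f u = i → u ∈ W := by simp [BW]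

/-- **Hall's condition** for the last class and any other class. -/
lemma IsMin.hall {f : V → ℕ} (hf : IsMin G p f) (hdeg : ∀ v, G.degree v ≤ p + 1) {i : ℕ}
    (hi : i < p) (W : Finset V) (hW : ∀ w ∈ W, f w = i) : (BW G p f i W).card ≤ W.card := by
  classical
  by_contra hcon
  push Not at hcon
  obtain ⟨W', hW', hmax⟩ := Finset.exists_max_image
    (univ.filter (fun W : Finset V => (∀ w ∈ W, f w = i) ∧ W.card < (BW G p f i W).card))
    (fun W => W.card) ⟨W, mem_filter.2 ⟨mem_univ _, hW, hcon⟩⟩
  obtain ⟨-, hWi, hWlt⟩ := mem_filter.1 hW'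
  -- closed
  have hcl : ∀ b, f b = p → b ∉ BW G p f i W' → ∀ w ∈ W', ¬ G.Adj b w := by
    intro b hb hbn w hw hbw
    rw [mem_BW] at hbn
    push Not at hbn
    obtain ⟨u, hu1, hu2, hu3⟩ := hbn hb
    have hwu : w ≠ u := by
      rintro rfl
      exact hu3 hw
    have h1 : b ∈ BW G p f i (insert u W') := by
      rw [mem_BW]
      refine ⟨hb, fun x hx1 hx2 => ?_⟩
      by_contra hx3
      rw [mem_insert, not_or] at hx3
      have hxw : x ≠ w := by
        rintro rfl
        exact hx3.2 hw
      exact hf.no_two hdeg hb hu1 hx1 (Ne.symm hx3.1)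
        ⟨w, hwu, hxw.symm, hbw, (hWi w hw).trans hu2.symm⟩
        ⟨w, hwu, hxw.symm, hbw, (hWi w hw).trans hx2.symm⟩
    have h2 : insert b (BW G p f i W') ⊆ BW G p f i (insert u W') := by
      intro x hx
      rw [mem_insert] at hx
      rcases hx with rfl | hx
      · exact h1
      · rw [mem_BW] at hx ⊢
        exact ⟨hx.1, fun y hy1 hy2 => mem_insert_of_mem (hx.2 y hy1 hy2)⟩
    have h3 := card_le_card h2
    have hbn' : b ∉ BW G p f i W' := by
      rw [mem_BW]
      push Not
      exact fun _ => ⟨u, hu1, hu2, hu3⟩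
    rw [card_insert_of_notMem hbn'] at h3
    have h4 := hmax (insert u W') (mem_filter.2 ⟨mem_univ _, ?_, ?_⟩)
    · rw [card_insert_of_notMem hu3] at h4
      omega
    · intro x hx
      rw [mem_insert] at hx
      rcases hx with rfl | hx
      · exact hu2
      · exact hWi x hx
    · rw [card_insert_of_notMem hu3]
      omega
  -- the exchange
  let g : V → ℕ := fun v => if v ∈ W' then p else if v ∈ BW G p f i W' then i else f v
  have hgW : ∀ v, v ∈ W' → g v = p := fun v hv => by simp only [g, if_pos hv]
  have hWB : ∀ v, v ∈ BW G p f i W' → v ∉ W' := by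
    intro v hv hvW
    have h1 := (mem_BW.1 hv).1
    have h2 := hWi v hvW
    omega
  have hgB : ∀ v, v ∈ BW G p f i W' → g v = i := fun v hv => by
    simp only [g, if_neg (hWB v hv), if_pos hv]
  have hgo : ∀ v, v ∉ W' → v ∉ BW G p f i W' → g v = f v := fun v h1 h2 => by
    simp only [g, if_neg h1, if_neg h2]
  have hg : PC G p g := by
    constructor
    · intro v
      by_cases h1 : v ∈ W'
      · rw [hgW v h1]
      · by_cases h2 : v ∈ BW G p f i W'
        · rw [hgB v h2]; exact hi.le
        · rw [hgo v h1 h2]; exact hf.1.1 v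
    · have key : ∀ u v, G.Adj u v → u ∈ W' → g u ≠ g v := by
        intro u v huv hu
        rw [hgW u hu]
        by_cases h1 : v ∈ W'
        · exfalso
          exact hf.1.2 u v huv ((hWi u hu).trans (hWi v h1).symm)
        · by_cases h2 : v ∈ BW G p f i W'
          · rw [hgB v h2]; omega
          · rw [hgo v h1 h2]
            intro h3
            exact hcl v h3.symm h2 u hu huv.symm
      have key2 : ∀ u v, G.Adj u v → u ∈ BW G p f i W' → v ∉ W' → g u ≠ g v := by
        intro u v huv hu h1
        rw [hgB u hu]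
        obtain ⟨a1, a2⟩ := mem_BW.1 hu
        by_cases h2 : v ∈ BW G p f i W'
        · exfalso
          exact hf.1.2 u v huv (a1.trans (mem_BW.1 h2).1.symm)
        · rw [hgo v h1 h2]
          intro h3
          exact h1 (a2 v huv h3.symm)
      intro u v huv
      by_cases h1 : u ∈ W'
      · exact key u v huv h1
      · by_cases h2 : v ∈ W'
        · exact (key v u huv.symm h2).symm
        · by_cases h3 : u ∈ BW G p f i W'
          · exact key2 u v huv h3 h2
          · by_cases h4 : v ∈ BW G p f i W'
            · exact (key2 v u huv.symm h4 h1).symm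
            · rw [hgo u h1 h3, hgo v h2 h4]
              exact hf.1.2 u v huv
  have h1 := hf.2 g hg
  have h2 : Bs p g = W' ∪ (Bs p f \ BW G p f i W') := by
    ext v
    rw [mem_Bs, mem_union, mem_sdiff, mem_Bs]
    by_cases a1 : v ∈ W'
    · simp only [a1, true_or, iff_true]
      exact hgW v a1
    · by_cases a2 : v ∈ BW G p f i W'
      · rw [hgB v a2]
        simp only [a1, a2, not_true_eq_false, and_false, or_false, iff_false]
        omega
      · rw [hgo v a1 a2]
        simp only [a1, a2, not_false_eq_true, and_true, false_or]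
  have h3 : (Bs p g).card ≤ W'.card + (Bs p f \ BW G p f i W').card := by
    rw [h2]; exact card_union_le _ _
  have h4 : BW G p f i W' ⊆ Bs p f := by
    intro v hv
    exact mem_Bs.2 (mem_BW.1 hv).1
  have h5 := card_sdiff_add_card_eq_card h4
  omega

/-- **Few edges** between the last class and the rest. -/
lemma IsMin.few {f : V → ℕ} (hf : IsMin G p f) (hdeg : ∀ v, G.degree v ≤ p + 1)
    (S T : Finset V) (hS : ∀ b ∈ S, f b = p) (hT : ∀ t ∈ T, f t < p) :
    ∑ b ∈ S, (T.filter (fun t => G.Adj b t)).card ≤ S.card + T.card := by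
  classical
  have h1 : ∀ b ∈ S, (T.filter (fun t => G.Adj b t)).card ≤
      1 + ((range p).filter (fun i => ∀ u, G.Adj b u → f u = i → u ∈ T)).card := by
    intro b hb
    set I := (range p).filter (fun i => ∀ u, G.Adj b u → f u = i → u ∈ T) with hI
    have e1 : (range p \ I) ⊆ ((G.neighborFinset b) \ T).image f := by
      intro i hi
      rw [mem_sdiff, hI, mem_filter] at hi
      obtain ⟨a1, a2⟩ := hi
      push Not at a2
      obtain ⟨u, a3, a4, a5⟩ := a2 a1
      exact mem_image.2 ⟨u, mem_sdiff.2 ⟨by rwa [mem_neighborFinset], a5⟩, a4⟩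
    have e2 := (card_le_card e1).trans card_image_le
    have e3 : I ⊆ range p := filter_subset _ _
    have e4 := card_sdiff_add_card_eq_card e3
    rw [card_range] at e4
    have e5 : T.filter (fun t => G.Adj b t) ⊆ G.neighborFinset b := by
      intro t ht
      rw [mem_neighborFinset]
      exact (mem_filter.1 ht).2
    have e6 := card_sdiff_add_card_eq_card e5
    have e7 : (G.neighborFinset b) \ (T.filter (fun t => G.Adj b t)) = (G.neighborFinset b) \ T := by
      ext u
      rw [mem_sdiff, mem_sdiff, mem_filter, mem_neighborFinset]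
      tauto
    rw [e7, card_neighborFinset_eq_degree] at e6
    have e8 := hdeg b
    omega
  have h2 : ∑ b ∈ S, ((range p).filter (fun i => ∀ u, G.Adj b u → f u = i → u ∈ T)).card =
      ∑ i ∈ range p, (S.filter (fun b => ∀ u, G.Adj b u → f u = i → u ∈ T)).card :=
    Finset.sum_card_bipartiteAbove_eq_sum_card_bipartiteBelow _
  have h3 : ∀ i ∈ range p, (S.filter (fun b => ∀ u, G.Adj b u → f u = i → u ∈ T)).card ≤
      (T.filter (fun t => f t = i)).card := by
    intro i hi
    refine le_trans (card_le_card ?_) (hf.hall hdeg (mem_range.1 hi) (T.filter (fun t => f t = i))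
      (fun w hw => (mem_filter.1 hw).2))
    intro b hb
    obtain ⟨b1, b2⟩ := mem_filter.1 hb
    rw [mem_BW]
    exact ⟨hS b b1, fun u hu1 hu2 => mem_filter.2 ⟨b2 u hu1 hu2, hu2⟩⟩
  have h4 : ∑ i ∈ range p, (T.filter (fun t => f t = i)).card = T.card := by
    rw [← Finset.card_eq_sum_card_fiberwise]
    intro t ht
    rw [Finset.mem_coe, mem_range]
    exact hT t ht
  calc ∑ b ∈ S, (T.filter (fun t => G.Adj b t)).card
      ≤ ∑ b ∈ S, (1 + ((range p).filter (fun i => ∀ u, G.Adj b u → f u = i → u ∈ T)).card) :=
        sum_le_sum h1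
    _ = S.card + ∑ b ∈ S, ((range p).filter (fun i => ∀ u, G.Adj b u → f u = i → u ∈ T)).card := by
        rw [sum_add_distrib, sum_const, smul_eq_mul, mul_one]
    _ ≤ S.card + ∑ i ∈ range p, (T.filter (fun t => f t = i)).card := by
        rw [h2]
        exact Nat.add_le_add_left (sum_le_sum h3) _
    _ = S.card + T.card := by rw [h4]

end Pool.Agent.H85A
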