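import Mathlib
import Pool.Agent.H85A.Min

/-!
# The bad sets
-/

set_option autoImplicit false
set_option linter.unusedSectionVars false
set_option linter.unusedVariables false

namespace Pool.Agent.H85A

open SimpleGraph Finset

variable {V : Type} [Fintype V] [DecidableEq V] {G : SimpleGraph V} [DecidableRel G.Adj] {p : ℕ}

/-- adjacency across the last class -/
def Pa (G : SimpleGraph V) (p : ℕ) (f : V → ℕ) (v u : V) : Prop :=
  G.Adj v u ∧ (f v = p ∨ f u = p)

instance (f : V → ℕ) (v : V) : DecidablePred (Pa G p f v) := fun u => by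
  unfold Pa; infer_instance

lemma Pa.symm' {f : V → ℕ} {u v : V} (h : Pa G p f u v) : Pa G p f v u := ⟨h.1.symm, h.2.symm⟩

/-- bad sets: all degrees between the last class and the rest are at least two -/
def Bad (G : SimpleGraph V) [DecidableRel G.Adj] (p : ℕ) (f : V → ℕ) (K : Finset V) : Prop :=
  ∀ v ∈ K, 2 ≤ (K.filter (Pa G p f v)).card

/-- in a bad set all these degrees are two, and half of the vertices are in the last class -/
lemma bad_two {f : V → ℕ} (hf : IsMin G p f) (hdeg : ∀ v, G.degree v ≤ p + 1) {K : Finset V}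
    (hK : Bad G p f K) :
    (∀ v ∈ K, (K.filter (Pa G p f v)).card = 2) ∧
      (K.filter (fun v => f v = p)).card = (K.filter (fun v => ¬ f v = p)).card := by
  classical
  set S := K.filter (fun v => f v = p) with hS
  set T := K.filter (fun v => ¬ f v = p) with hT
  have hSp : ∀ b ∈ S, f b = p := fun b hb => (mem_filter.1 hb).2
  have hTp : ∀ t ∈ T, f t < p := fun t ht => lt_of_le_of_ne (hf.1.1 t) (mem_filter.1 ht).2
  have e1 : ∀ b ∈ S, K.filter (Pa G p f b) = T.filter (fun t => G.Adj b t) := by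
    intro b hb
    ext t
    rw [mem_filter, mem_filter, hT, mem_filter]
    constructor
    · rintro ⟨a1, a2, a3⟩
      refine ⟨⟨a1, fun h => ?_⟩, a2⟩
      exact hf.1.2 b t a2 ((hSp b hb).trans h.symm)
    · rintro ⟨⟨a1, a2⟩, a3⟩
      exact ⟨a1, a3, Or.inl (hSp b hb)⟩
  have e2 : ∀ t ∈ T, K.filter (Pa G p f t) = S.filter (fun b => G.Adj b t) := by
    intro t ht
    ext b
    rw [mem_filter, mem_filter, hS, mem_filter]
    have := hTp t ht
    constructor
    · rintro ⟨a1, a2, a3⟩
      refine ⟨⟨a1, ?_⟩, a2.symm⟩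
      rcases a3 with a3 | a3
      · omega
      · exact a3
    · rintro ⟨⟨a1, a2⟩, a3⟩
      exact ⟨a1, a3.symm, Or.inr a2⟩
  have few := hf.few hdeg S T hSp hTp
  have dc : ∑ b ∈ S, (T.filter (fun t => G.Adj b t)).card =
      ∑ t ∈ T, (S.filter (fun b => G.Adj b t)).card :=
    Finset.sum_card_bipartiteAbove_eq_sum_card_bipartiteBelow _
  have s1 : ∀ b ∈ S, 2 ≤ (T.filter (fun t => G.Adj b t)).card := by
    intro b hb
    rw [← e1 b hb]
    exact hK b (mem_filter.1 hb).1
  have t1 : ∀ t ∈ T, 2 ≤ (S.filter (fun b => G.Adj b t)).card := by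
    intro t ht
    rw [← e2 t ht]
    exact hK t (mem_filter.1 ht).1
  have s2 : 2 * S.card ≤ ∑ b ∈ S, (T.filter (fun t => G.Adj b t)).card := by
    rw [mul_comm, ← smul_eq_mul, ← sum_const]
    exact sum_le_sum s1
  have t2 : 2 * T.card ≤ ∑ t ∈ T, (S.filter (fun b => G.Adj b t)).card := by
    rw [mul_comm, ← smul_eq_mul, ← sum_const]
    exact sum_le_sum t1
  have hST : S.card = T.card := by omega
  refine ⟨?_, hST⟩
  have s3 : ∑ b ∈ S, 2 = ∑ b ∈ S, (T.filter (fun t => G.Adj b t)).card := by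
    rw [sum_const, smul_eq_mul]; omega
  have t3 : ∑ t ∈ T, 2 = ∑ t ∈ T, (S.filter (fun b => G.Adj b t)).card := by
    rw [sum_const, smul_eq_mul]; omega
  have s4 := (Finset.sum_eq_sum_iff_of_le s1).1 s3
  have t4 := (Finset.sum_eq_sum_iff_of_le t1).1 t3
  intro v hv
  by_cases hvp : f v = p
  · have hvS : v ∈ S := mem_filter.2 ⟨hv, hvp⟩
    rw [e1 v hvS]
    exact (s4 v hvS).symm
  · have hvT : v ∈ T := mem_filter.2 ⟨hv, hvp⟩
    rw [e2 v hvT]
    exact (t4 v hvT).symm

/-- flexible vertices: they can be recoloured inside the first classes -/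
def Flex (G : SimpleGraph V) (p : ℕ) (f : V → ℕ) (v : V) : Prop :=
  f v < p ∧ ∃ j < p, j ≠ f v ∧ ∀ u, G.Adj v u → f u ≠ j

/-- a vertex of the last class has at most one flexible neighbour -/
lemma flex_unique {f : V → ℕ} (hf : IsMin G p f) (hdeg : ∀ v, G.degree v ≤ p + 1) {b v v' : V}
    (hb : f b = p) (hv : G.Adj b v) (hv' : G.Adj b v') (h1 : Flex G p f v) (h2 : Flex G p f v') :
    v = v' := by
  by_contra hne
  obtain ⟨hvp, j, hj, hjv, hjn⟩ := h1
  obtain ⟨hvp', j', hj', hjv', hjn'⟩ := h2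
  have hbv : b ≠ v := hv.ne
  have hbv' : b ≠ v' := hv'.ne
  by_cases hc : f v = f v'
  · -- recolour both
    have g1 := hf.update hvp hj hjn
    have g2 : IsMin G p (Function.update (Function.update f v j) v' j') := by
      apply g1.update
      · rw [Function.update_of_ne (Ne.symm hne)]; exact hvp'
      · exact hj'
      · intro u hu
        by_cases huv : u = v
        · subst huv
          exact absurd hc.symm (hf.1.2 v' u hu)
        · rw [Function.update_of_ne huv]
          exact hjn' u hu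
    have hb' : Function.update (Function.update f v j) v' j' b = p := by
      rw [Function.update_of_ne hbv', Function.update_of_ne hbv]; exact hb
    obtain ⟨u, hu1, hu2⟩ := g2.see hb' hvp
    have huv' : u ≠ v' := by
      rintro rfl
      rw [Function.update_self] at hu2
      exact hjv' (hu2.trans hc)
    rw [Function.update_of_ne huv'] at hu2
    have huv : u ≠ v := by
      rintro rfl
      rw [Function.update_self] at hu2
      exact hjv hu2
    rw [Function.update_of_ne huv] at hu2
    exact hf.no_two hdeg hb hv hv' hne ⟨u, huv, huv', hu1, hu2⟩ ⟨u, huv, huv', hu1, hu2.trans hc⟩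
  · have key : ∀ (x y : V) (j : ℕ), x ≠ y → f x ≠ f y → G.Adj b x → f x < p → j < p → j ≠ f x →
        (∀ u, G.Adj x u → f u ≠ j) → ∃ u, u ≠ x ∧ u ≠ y ∧ G.Adj b u ∧ f u = f x := by
      intro x y j hxy hfxy hbx hxp hj hjx hjn
      have g1 := hf.update hxp hj hjn
      have hb' : Function.update f x j b = p := by
        rw [Function.update_of_ne hbx.ne]; exact hb
      obtain ⟨u, hu1, hu2⟩ := g1.see hb' hxp
      have hux : u ≠ x := by
        rintro rfl
        rw [Function.update_self] at hu2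
        exact hjx hu2
      rw [Function.update_of_ne hux] at hu2
      refine ⟨u, hux, ?_, hu1, hu2⟩
      rintro rfl
      exact hfxy hu2.symm
    obtain ⟨u, a1, a2, a3, a4⟩ := key v v' j hne hc hv hvp hj hjv hjn
    obtain ⟨u', b1, b2, b3, b4⟩ := key v' v j' (Ne.symm hne) (fun h => hc h.symm) hv' hvp' hj' hjv' hjn'
    exact hf.no_two hdeg hb hv hv' hne ⟨u, a1, a2, a3, a4⟩ ⟨u', b2, b1, b3, b4⟩

/-- the neighbours of a vertex that is not flexible outside the last class -/
lemma rigid_deg {f : V → ℕ} (hf : IsMin G p f) {v : V} (hv : f v < p) (h : ¬ Flex G p f v) :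
    p ≤ ((G.neighborFinset v).filter (fun u => ¬ f u = p)).card + 1 := by
  classical
  have h1 : (range p).erase (f v) ⊆ ((G.neighborFinset v).filter (fun u => ¬ f u = p)).image f := by
    intro j hj
    rw [mem_erase, mem_range] at hj
    have h2 : ∃ u, G.Adj v u ∧ f u = j := by
      by_contra hcon
      push Not at hcon
      exact h ⟨hv, j, hj.2, hj.1, hcon⟩
    obtain ⟨u, hu1, hu2⟩ := h2
    refine mem_image.2 ⟨u, mem_filter.2 ⟨by rwa [mem_neighborFinset], ?_⟩, hu2⟩
    omega
  have h2 := (card_le_card h1).trans card_image_le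
  rw [card_erase_of_mem (mem_range.2 hv), card_range] at h2
  omega

/-- a bad set contains two vertices that are not flexible -/
lemma bad_rigid {f : V → ℕ} (hf : IsMin G p f) (hdeg : ∀ v, G.degree v ≤ p + 1) {K : Finset V}
    (hK : Bad G p f K) (hne : K.Nonempty) :
    ∃ x ∈ K, ∃ y ∈ K, x ≠ y ∧ f x < p ∧ f y < p ∧ ¬ Flex G p f x ∧ ¬ Flex G p f y := by
  classical
  obtain ⟨h2, hcard⟩ := bad_two hf hdeg hK
  set S := K.filter (fun v => f v = p) with hS
  set T := K.filter (fun v => ¬ f v = p) with hT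
  have hSp : ∀ b ∈ S, f b = p := fun b hb => (mem_filter.1 hb).2
  have hTp : ∀ t ∈ T, f t < p := fun t ht => lt_of_le_of_ne (hf.1.1 t) (mem_filter.1 ht).2
  have hSK : ∀ b ∈ S, b ∈ K := fun b hb => (mem_filter.1 hb).1
  have hTK : ∀ t ∈ T, t ∈ K := fun t ht => (mem_filter.1 ht).1
  have e1 : ∀ b ∈ S, K.filter (Pa G p f b) = T.filter (fun t => G.Adj b t) := by
    intro b hb
    ext t
    rw [mem_filter, mem_filter, hT, mem_filter]
    constructor
    · rintro ⟨a1, a2, a3⟩
      refine ⟨⟨a1, fun h => ?_⟩, a2⟩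
      exact hf.1.2 b t a2 ((hSp b hb).trans h.symm)
    · rintro ⟨⟨a1, a2⟩, a3⟩
      exact ⟨a1, a3, Or.inl (hSp b hb)⟩
  have e2 : ∀ t ∈ T, K.filter (Pa G p f t) = S.filter (fun b => G.Adj b t) := by
    intro t ht
    ext b
    rw [mem_filter, mem_filter, hS, mem_filter]
    have := hTp t ht
    constructor
    · rintro ⟨a1, a2, a3⟩
      refine ⟨⟨a1, ?_⟩, a2.symm⟩
      rcases a3 with a3 | a3
      · omega
      · exact a3
    · rintro ⟨⟨a1, a2⟩, a3⟩
      exact ⟨a1, a3.symm, Or.inr a2⟩
  have s2 : ∀ b ∈ S, (T.filter (fun t => G.Adj b t)).card = 2 := fun b hb => by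
    rw [← e1 b hb]; exact h2 b (hSK b hb)
  have t2 : ∀ t ∈ T, (S.filter (fun b => G.Adj b t)).card = 2 := fun t ht => by
    rw [← e2 t ht]; exact h2 t (hTK t ht)
  set R := T.filter (fun t => ¬ Flex G p f t) with hR
  have hRT : R ⊆ T := filter_subset _ _
  have dc : ∑ b ∈ S, (R.filter (fun t => G.Adj b t)).card =
      ∑ t ∈ R, (S.filter (fun b => G.Adj b t)).card :=
    Finset.sum_card_bipartiteAbove_eq_sum_card_bipartiteBelow _
  have r1 : ∀ b ∈ S, 1 ≤ (R.filter (fun t => G.Adj b t)).card := by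
    intro b hb
    by_contra hcon
    have h3 : R.filter (fun t => G.Adj b t) = ∅ := by
      rw [← card_eq_zero]; omega
    have h4 := s2 b hb
    rw [card_eq_two] at h4
    obtain ⟨x, y, hxy, h4⟩ := h4
    have hx : x ∈ T.filter (fun t => G.Adj b t) := by rw [h4]; simp
    have hy : y ∈ T.filter (fun t => G.Adj b t) := by rw [h4]; simp
    have hfl : ∀ z ∈ T.filter (fun t => G.Adj b t), Flex G p f z := by
      intro z hz
      by_contra hnf
      obtain ⟨z1, z2⟩ := mem_filter.1 hz
      have : z ∈ R.filter (fun t => G.Adj b t) := mem_filter.2 ⟨mem_filter.2 ⟨z1, hnf⟩, z2⟩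
      rw [h3] at this
      exact absurd this (notMem_empty _)
    exact hxy (flex_unique hf hdeg (hSp b hb) (mem_filter.1 hx).2 (mem_filter.1 hy).2 (hfl x hx)
      (hfl y hy))
  have r2 : S.card ≤ 2 * R.card := by
    have a1 : S.card ≤ ∑ b ∈ S, (R.filter (fun t => G.Adj b t)).card := by
      rw [card_eq_sum_ones]
      exact sum_le_sum r1
    have a2 : ∑ t ∈ R, (S.filter (fun b => G.Adj b t)).card = R.card * 2 := by
      rw [← smul_eq_mul, ← sum_const]
      exact sum_congr rfl fun t ht => t2 t (hRT ht)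
    omega
  have hS2 : 2 ≤ S.card := by
    obtain ⟨v, hv⟩ := hne
    by_cases hvp : f v = p
    · have h3 := s2 v (mem_filter.2 ⟨hv, hvp⟩)
      have h4 : (T.filter (fun t => G.Adj v t)).card ≤ T.card := card_filter_le _ _
      omega
    · have h3 := t2 v (mem_filter.2 ⟨hv, hvp⟩)
      have h4 : (S.filter (fun b => G.Adj b v)).card ≤ S.card := card_filter_le _ _
      omega
  by_cases hR2 : 2 ≤ R.card
  · obtain ⟨x, y, hx, hy, hxy⟩ := Finset.one_lt_card_iff.1 (by omega : 1 < R.card)
    obtain ⟨x1, x2⟩ := mem_filter.1 hx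
    obtain ⟨y1, y2⟩ := mem_filter.1 hy
    exact ⟨x, hTK x x1, y, hTK y y1, hxy, hTp x x1, hTp y y1, x2, y2⟩
  exfalso
  have hSc : S.card = 2 := by omega
  have hTc : T.card = 2 := by omega
  have hRc : R.card = 1 := by omega
  obtain ⟨v1, hv1⟩ := card_eq_one.1 hRc
  have hv1R : v1 ∈ R := by rw [hv1]; simp
  have hv1T := hRT hv1R
  obtain ⟨v2, hv2T, hv12⟩ : ∃ v2 ∈ T, v2 ≠ v1 := by
    obtain ⟨x, y, hxy, hTxy⟩ := card_eq_two.1 hTc
    by_cases hx : x = v1
    · refine ⟨y, by rw [hTxy]; simp, ?_⟩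
      rw [← hx]; exact hxy.symm
    · exact ⟨x, by rw [hTxy]; simp, hx⟩
  have hflex : Flex G p f v2 := by
    by_contra hnf
    have : v2 ∈ R := mem_filter.2 ⟨hv2T, hnf⟩
    rw [hv1, mem_singleton] at this
    exact hv12 this
  -- all adjacencies are present
  have hadj : ∀ b ∈ S, ∀ t ∈ T, G.Adj b t := by
    intro b hb t ht
    have h3 := s2 b hb
    rw [← hTc] at h3
    have h4 := Finset.eq_of_subset_of_card_le (filter_subset (fun t => G.Adj b t) T) h3.ge
    rw [← h4] at ht
    exact (mem_filter.1 ht).2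
  obtain ⟨hv2p, j, hj, hjv, hjn⟩ := hflex
  have hv1p := hTp v1 hv1T
  have g1 := hf.update hv2p hj hjn
  by_cases hc : f v1 = f v2
  · -- use the recoloured function
    have h3 := g1.hall hdeg hv1p {v1} (by
      intro w hw
      rw [mem_singleton] at hw
      subst hw
      rw [Function.update_of_ne (Ne.symm hv12)])
    have h4 : S ⊆ BW G p (Function.update f v2 j) (f v1) {v1} := by
      intro b hb
      have hbp := hSp b hb
      rw [mem_BW]
      constructor
      · rw [Function.update_of_ne (hadj b hb v2 hv2T).ne]; exact hbp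
      · intro u hu1 hu2
        rw [mem_singleton]
        have huv2 : u ≠ v2 := by
          rintro rfl
          rw [Function.update_self] at hu2
          exact hjv (hu2.trans hc)
        rw [Function.update_of_ne huv2] at hu2
        by_contra huv1
        exact hf.no_two hdeg hbp hu1 (hadj b hb v2 hv2T) huv2
          ⟨v1, Ne.symm huv1, Ne.symm hv12, hadj b hb v1 hv1T, hu2.symm⟩
          ⟨v1, Ne.symm huv1, Ne.symm hv12, hadj b hb v1 hv1T, hc⟩
    have h5 := card_le_card h4
    rw [card_singleton] at h3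
    omega
  · have h3 := hf.hall hdeg hv1p {v1} (by
      intro w hw
      rw [mem_singleton] at hw
      subst hw
      rfl)
    have h4 : S ⊆ BW G p f (f v1) {v1} := by
      intro b hb
      have hbp := hSp b hb
      rw [mem_BW]
      refine ⟨hbp, fun u hu1 hu2 => ?_⟩
      rw [mem_singleton]
      by_contra huv1
      have hb' : Function.update f v2 j b = p := by
        rw [Function.update_of_ne (hadj b hb v2 hv2T).ne]; exact hbp
      obtain ⟨w, hw1, hw2⟩ := g1.see hb' hv2p
      have hwv2 : w ≠ v2 := by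
        rintro rfl
        rw [Function.update_self] at hw2
        exact hjv hw2
      rw [Function.update_of_ne hwv2] at hw2
      have huv2 : u ≠ v2 := by
        rintro rfl
        exact hc hu2.symm
      have hwu : w ≠ u := by
        rintro rfl
        exact hc (hu2.symm.trans hw2)
      exact hf.no_two hdeg hbp hu1 (hadj b hb v2 hv2T) huv2
        ⟨v1, Ne.symm huv1, Ne.symm hv12, hadj b hb v1 hv1T, hu2.symm⟩
        ⟨w, hwu, hwv2, hw1, hw2⟩
    have h5 := card_le_card h4
    rw [card_singleton] at h3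
    omega

/-! ### Minimal bad sets -/

/-- minimal nonempty bad sets -/
def MB (G : SimpleGraph V) [DecidableRel G.Adj] (p : ℕ) (f : V → ℕ) (K : Finset V) : Prop :=
  K.Nonempty ∧ Bad G p f K ∧ ∀ K', K' ⊂ K → K'.Nonempty → ¬ Bad G p f K'

lemma exists_MB {f : V → ℕ} {K : Finset V} (h1 : K.Nonempty) (h2 : Bad G p f K) :
    ∃ K', K' ⊆ K ∧ MB G p f K' := by
  induction K using Finset.strongInduction with
  | _ K ih =>
    by_cases h : ∃ K', K' ⊂ K ∧ K'.Nonempty ∧ Bad G p f K'
    · obtain ⟨K', a1, a2, a3⟩ := h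
      obtain ⟨K'', b1, b2⟩ := ih K' a1 a2 a3
      exact ⟨K'', b1.trans a1.subset, b2⟩
    · push Not at h
      exact ⟨K, Subset.refl _, h1, h2, h⟩

lemma bad_union {f : V → ℕ} {K K' : Finset V} (h : Bad G p f K) (h' : Bad G p f K') :
    Bad G p f (K ∪ K') := by
  intro v hv
  rw [mem_union] at hv
  rcases hv with hv | hv
  · exact (h v hv).trans (card_le_card (filter_subset_filter _ subset_union_left))
  · exact (h' v hv).trans (card_le_card (filter_subset_filter _ subset_union_right))

lemma bad_inter {f : V → ℕ} (hf : IsMin G p f) (hdeg : ∀ v, G.degree v ≤ p + 1) {K K' : Finset V}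
    (h : Bad G p f K) (h' : Bad G p f K') : Bad G p f (K ∩ K') := by
  intro v hv
  rw [mem_inter] at hv
  have h1 := (bad_two hf hdeg (bad_union h h')).1 v (mem_union_left _ hv.1)
  have e1 : K.filter (Pa G p f v) = (K ∪ K').filter (Pa G p f v) := by
    apply Finset.eq_of_subset_of_card_le (filter_subset_filter _ subset_union_left)
    rw [h1]; exact h v hv.1
  have e2 : K'.filter (Pa G p f v) = (K ∪ K').filter (Pa G p f v) := by
    apply Finset.eq_of_subset_of_card_le (filter_subset_filter _ subset_union_right)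
    rw [h1]; exact h' v hv.2
  have e3 : (K ∪ K').filter (Pa G p f v) ⊆ (K ∩ K').filter (Pa G p f v) := by
    intro u hu
    have a1 : u ∈ K.filter (Pa G p f v) := by rw [e1]; exact hu
    have a2 : u ∈ K'.filter (Pa G p f v) := by rw [e2]; exact hu
    exact mem_filter.2 ⟨mem_inter.2 ⟨(mem_filter.1 a1).1, (mem_filter.1 a2).1⟩, (mem_filter.1 a1).2⟩
  have := card_le_card e3
  omega

lemma MB_eq {f : V → ℕ} (hf : IsMin G p f) (hdeg : ∀ v, G.degree v ≤ p + 1) {K K' : Finset V}
    (h : MB G p f K) (h' : MB G p f K') {v : V} (hv : v ∈ K) (hv' : v ∈ K') : K = K' := by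
  have hb := bad_inter hf hdeg h.2.1 h'.2.1
  have hne : (K ∩ K').Nonempty := ⟨v, mem_inter.2 ⟨hv, hv'⟩⟩
  have h1 : K ∩ K' = K := by
    by_contra hcon
    exact h.2.2 (K ∩ K') (Finset.ssubset_iff_subset_ne.2 ⟨inter_subset_left, hcon⟩) hne hb
  have h2 : K ∩ K' = K' := by
    by_contra hcon
    exact h'.2.2 (K ∩ K') (Finset.ssubset_iff_subset_ne.2 ⟨inter_subset_right, hcon⟩) hne hb
  exact h1.symm.trans h2

/-- matchings outside the last class -/
def IsM (G : SimpleGraph V) (p : ℕ) (f : V → ℕ) (m : V → V) : Prop :=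
  (∀ v, m (m v) = v) ∧ ∀ v, m v ≠ v → G.Adj v (m v) ∧ f v < p ∧ f (m v) < p

/-- **The matching**: it meets all bad sets and is maximal. -/
theorem exists_matching {f : V → ℕ} (hf : IsMin G p f) (hp : 3 ≤ p)
    (hdeg : ∀ v, G.degree v ≤ p + 1) :
    ∃ m : V → V, IsM G p f m ∧ (∀ K : Finset V, K.Nonempty → Bad G p f K → ∃ v ∈ K, m v ≠ v) ∧
      ∀ u v, G.Adj u v → f u < p → f v < p → m u = u → m v ≠ v := by
  classical
  rcases isEmpty_or_nonempty V with hV | hV
  · refine ⟨id, ⟨fun v => rfl, fun v h => absurd rfl h⟩, ?_, fun u => (hV.false u).elim⟩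
    rintro K ⟨v, -⟩
    exact (hV.false v).elim
  -- the two vertices
  have hxy : ∀ K, MB G p f K → ∃ x ∈ K, ∃ y ∈ K, x ≠ y ∧ f x < p ∧ f y < p ∧
      ¬ Flex G p f x ∧ ¬ Flex G p f y := fun K hK => bad_rigid hf hdeg hK.2.1 hK.1
  choose! x hx y hy hne hxp hyp hxf hyf using hxy
  let X : Finset V := univ.filter (fun v => ∃ K, MB G p f K ∧ (v = x K ∨ v = y K))
  have hmX : ∀ v, v ∈ X ↔ ∃ K, MB G p f K ∧ (v = x K ∨ v = y K) := by
    intro v; simp [X]
  let e : ℕ := (Fintype.card V + Fintype.card (Finset V)) % 2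
  let pr : V → Finset V ⊕ Fin e := fun v =>
    if h : ∃ K, MB G p f K ∧ v ∈ K then Sum.inl h.choose else Sum.inl ∅
  have hpr : ∀ K v, MB G p f K → v ∈ K → pr v = Sum.inl K := by
    intro K v hK hv
    have h : ∃ K, MB G p f K ∧ v ∈ K := ⟨K, hK, hv⟩
    simp only [pr, dif_pos h]
    have h1 := h.choose_spec
    rw [MB_eq hf hdeg h1.1 hK h1.2 hv]
  have hXK : ∀ v ∈ X, ∃ K, MB G p f K ∧ v ∈ K ∧ (v = x K ∨ v = y K) := by
    intro v hv
    obtain ⟨K, hK, h⟩ := (hmX v).1 hv
    refine ⟨K, hK, ?_, h⟩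
    rcases h with h | h
    · rw [h]; exact hx K hK
    · rw [h]; exact hy K hK
  let H : SimpleGraph V := {
    Adj := fun u v => G.Adj u v ∧ f u < p ∧ f v < p
    symm := ⟨fun u v h => ⟨h.1.symm, h.2.2, h.2.1⟩⟩
    loopless := ⟨fun v h => G.irrefl h.1⟩ }
  have hHa : ∀ u v, H.Adj u v ↔ G.Adj u v ∧ f u < p ∧ f v < p := fun u v => Iff.rfl
  have hHd : ∀ v, H.degree v ≤ p + 1 := by
    intro v
    refine le_trans ?_ (hdeg v)
    rw [← card_neighborFinset_eq_degree, ← card_neighborFinset_eq_degree]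
    apply card_le_card
    intro u hu
    rw [mem_neighborFinset] at hu ⊢
    exact hu.1
  have hHx : ∀ v ∈ X, p + 1 ≤ H.degree v + 2 := by
    intro v hv
    obtain ⟨K, hK, hvK, h⟩ := hXK v hv
    have hvp : f v < p ∧ ¬ Flex G p f v := by
      rcases h with h | h
      · rw [h]; exact ⟨hxp K hK, hxf K hK⟩
      · rw [h]; exact ⟨hyp K hK, hyf K hK⟩
    have h1 := rigid_deg hf hvp.1 hvp.2
    have h2 : (G.neighborFinset v).filter (fun u => ¬ f u = p) ⊆ H.neighborFinset v := by
      intro u hu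
      obtain ⟨u1, u2⟩ := mem_filter.1 hu
      rw [mem_neighborFinset] at u1 ⊢
      exact ⟨u1, hvp.1, lt_of_le_of_ne (hf.1.1 u) u2⟩
    have h3 := card_le_card h2
    rw [card_neighborFinset_eq_degree] at h3
    omega
  obtain ⟨m0, m01, m02, m03⟩ := cover H X pr (p + 1) (by omega)
    (by
      rw [Fintype.card_sum, Fintype.card_fin]
      have : e = (Fintype.card V + Fintype.card (Finset V)) % 2 := rfl
      rw [Nat.even_iff]
      omega)
    (by
      intro k
      rcases k with K | k
      · by_cases hK : MB G p f K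
        · have h1 : X.filter (fun v => pr v = Sum.inl K) ⊆ {x K, y K} := by
            intro v hv
            obtain ⟨hvX, hvK⟩ := mem_filter.1 hv
            obtain ⟨K', hK', hvK', h⟩ := hXK v hvX
            rw [hpr K' v hK' hvK'] at hvK
            have hKK : K' = K := Sum.inl_injective hvK
            rw [hKK] at h
            rw [mem_insert, mem_singleton]
            exact h
          exact (card_le_card h1).trans card_le_two
        · have h1 : X.filter (fun v => pr v = Sum.inl K) = ∅ := by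
            rw [Finset.eq_empty_iff_forall_notMem]
            intro v hv
            obtain ⟨hvX, hvK⟩ := mem_filter.1 hv
            obtain ⟨K', hK', hvK', h⟩ := hXK v hvX
            rw [hpr K' v hK' hvK'] at hvK
            have hKK : K' = K := Sum.inl_injective hvK
            rw [hKK] at hK'
            exact hK hK'
          rw [h1]; simp
      · have h1 : X.filter (fun v => pr v = Sum.inr k) = ∅ := by
          rw [Finset.eq_empty_iff_forall_notMem]
          intro v hv
          obtain ⟨hvX, hvK⟩ := mem_filter.1 hv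
          obtain ⟨K', hK', hvK', h⟩ := hXK v hvX
          rw [hpr K' v hK' hvK'] at hvK
          exact absurd hvK (by simp)
        rw [h1]; simp) hHx hHd
  -- the matching is admissible
  have good : ∀ K : Finset V, K.Nonempty → Bad G p f K → ∃ v ∈ K, m0 v ≠ v := by
    intro K hKn hKb
    obtain ⟨K', hK', hMB⟩ := exists_MB hKn hKb
    have h1 := m03 (x K') ((hmX _).2 ⟨K', hMB, Or.inl rfl⟩) (y K')
      ((hmX _).2 ⟨K', hMB, Or.inr rfl⟩) (hne K' hMB)
      (by rw [hpr K' _ hMB (hx K' hMB), hpr K' _ hMB (hy K' hMB)])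
    rcases h1 with h1 | h1
    · exact ⟨x K', hK' (hx K' hMB), h1⟩
    · exact ⟨y K', hK' (hy K' hMB), h1⟩
  -- a largest one
  obtain ⟨m, hm, hmax⟩ := Finset.exists_max_image
    (univ.filter (fun m : V → V => IsM G p f m ∧
      ∀ K : Finset V, K.Nonempty → Bad G p f K → ∃ v ∈ K, m v ≠ v))
    (fun m => (univ.filter (fun v => m v ≠ v)).card)
    ⟨m0, mem_filter.2 ⟨mem_univ _, ⟨m01, fun v hv => (hHa _ _).1 (m02 v hv)⟩, good⟩⟩
  obtain ⟨-, hmM, hmB⟩ := mem_filter.1 hm
  refine ⟨m, hmM, hmB, ?_⟩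
  intro u v huv hu hv hmu hmv
  -- add the edge
  let m1 : V → V := fun w => if w = u then v else if w = v then u else m w
  have huvne : u ≠ v := huv.ne
  have m1u : m1 u = v := by simp only [m1, if_pos]
  have m1v : m1 v = u := by simp only [m1, if_neg huvne.symm, if_pos]
  have m1o : ∀ w, w ≠ u → w ≠ v → m1 w = m w := fun w h1 h2 => by
    simp only [m1, if_neg h1, if_neg h2]
  have hmo : ∀ w, w ≠ u → w ≠ v → m w ≠ u ∧ m w ≠ v := by
    intro w h1 h2
    constructor
    · intro h3
      apply h1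
      rw [← hmM.1 w, h3, hmu]
    · intro h3
      apply h2
      rw [← hmM.1 w, h3, hmv]
  have hle : ∀ w, m w ≠ w → m1 w ≠ w := by
    intro w hw
    have h1 : w ≠ u := by rintro rfl; exact hw hmu
    have h2 : w ≠ v := by rintro rfl; exact hw hmv
    rw [m1o w h1 h2]
    exact hw
  have h1 := hmax m1 (mem_filter.2 ⟨mem_univ _, ⟨?_, ?_⟩, ?_⟩)
  · have h2 : insert u (univ.filter (fun w => m w ≠ w)) ⊆ univ.filter (fun w => m1 w ≠ w) := by
      intro w hw
      rw [mem_insert, mem_filter] at hw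
      rw [mem_filter]
      refine ⟨mem_univ _, ?_⟩
      rcases hw with rfl | hw
      · rw [m1u]; exact huvne.symm
      · exact hle w hw.2
    have h3 := card_le_card h2
    rw [card_insert_of_notMem (by
      rw [mem_filter]
      exact fun h => h.2 hmu)] at h3
    have h4 : (univ.filter (fun w => m1 w ≠ w)).card ≤ (univ.filter (fun w => m w ≠ w)).card := h1
    omega
  · intro w
    by_cases h1 : w = u
    · rw [h1, m1u, m1v]
    · by_cases h2 : w = v
      · rw [h2, m1v, m1u]
      · rw [m1o w h1 h2, m1o (m w) (hmo w h1 h2).1 (hmo w h1 h2).2]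
        exact hmM.1 w
  · intro w hw
    by_cases h1 : w = u
    · subst h1
      rw [m1u]; exact ⟨huv, hu, hv⟩
    · by_cases h2 : w = v
      · subst h2
        rw [m1v]; exact ⟨huv.symm, hv, hu⟩
      · rw [m1o w h1 h2] at hw ⊢
        exact hmM.2 w hw
  · intro K hK1 hK2
    obtain ⟨w, hw1, hw2⟩ := hmB K hK1 hK2
    exact ⟨w, hw1, hle w hw2⟩

end Pool.Agent.H85A
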