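import Mathlib
import Pool.Agent.H85A.Bad
import Pool.Agent.H85A.Brooks
import Pool.Agent.Q6.CI.Vizing

/-!
# The labelling
-/

set_option autoImplicit false
set_option linter.unusedSectionVars false
set_option linter.unusedVariables false

namespace Pool.Agent.H85A

open SimpleGraph Finset
open Pool.Q11.TwoEnd (EC)
open Pool.Q6.CI (dg dg_mono delV delV_le ext_vertex vizing)

variable {V : Type} [Fintype V] [DecidableEq V]

/-- Peeling: if every nonempty set of vertices of degree `n` contains a vertex with at most one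
neighbour in the set, `n` colours suffice for the edges (Fournier). -/
theorem peel {G : SimpleGraph V} {n : ℕ} (hn : 1 ≤ n) (hdeg : ∀ v, dg G v ≤ n)
    (hpeel : ∀ S : Finset V, S.Nonempty → (∀ v ∈ S, dg G v = n) →
      ∃ v ∈ S, ∀ w w', w ∈ S → w' ∈ S → G.Adj v w → G.Adj v w' → w = w') : EC G n := by
  classical
  have key : ∀ (k : ℕ) (G' : SimpleGraph V), G' ≤ G → ∑ v, dg G' v = k → EC G' n := by
    intro k
    induction k using Nat.strong_induction_on with
    | _ k ih =>
      intro G' hle hk
      by_cases h : ∀ v, dg G' v < n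
      · have h1 : EC G' (n - 1 + 1) := vizing (fun v => by have := h v; omega)
        rwa [Nat.sub_add_cancel hn] at h1
      push Not at h
      obtain ⟨v0, hv0⟩ := h
      have hd' : ∀ v, dg G' v ≤ n := fun v => (dg_mono hle v).trans (hdeg v)
      set S : Finset V := univ.filter (fun v => dg G' v = n) with hS
      obtain ⟨v, hvS, hv⟩ := hpeel S ⟨v0, mem_filter.2 ⟨mem_univ _, le_antisymm (hd' v0) hv0⟩⟩ (by
        intro v hv
        have h1 := (mem_filter.1 hv).2
        have h2 := dg_mono hle v
        have h3 := hdeg v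
        omega)
      have hvn : dg G' v = n := (mem_filter.1 hvS).2
      refine ext_vertex (v := v) (hd' v) (fun w _ => hd' w) ?_ ?_
      · intro w w' hw hw' h1 h2
        exact hv w w' (mem_filter.2 ⟨mem_univ _, h1⟩) (mem_filter.2 ⟨mem_univ _, h2⟩) (hle hw)
          (hle hw')
      · refine ih (∑ u, dg (delV G' v) u) ?_ _ ((delV_le G' v).trans hle) rfl
        rw [← hk]
        apply Finset.sum_lt_sum
        · intro u _
          exact dg_mono (delV_le G' v) u
        · refine ⟨v, mem_univ _, ?_⟩
          rw [hvn]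
          have : dg (delV G' v) v = 0 := by
            unfold dg
            rw [card_eq_zero, Finset.eq_empty_iff_forall_notMem]
            intro w hw
            exact (mem_filter.1 hw).2.2.1 rfl
          omega
  exact key _ G le_rfl rfl

/-- the graph without the matching `m` -/
def minus (G : SimpleGraph V) (m : V → V) : SimpleGraph V where
  Adj u v := G.Adj u v ∧ m u ≠ v ∧ m v ≠ u
  symm := ⟨fun u v h => ⟨h.1.symm, h.2.2, h.2.1⟩⟩
  loopless := ⟨fun v h => G.irrefl h.1⟩

theorem class_one {G : SimpleGraph V} [DecidableRel G.Adj] {p : ℕ} {f : V → ℕ}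
    (hf : IsMin G p f) (hp : 3 ≤ p) (hdeg : ∀ v, G.degree v ≤ p + 1) :
    ∃ m : V → V, IsM G p f m ∧ EC (minus G m) (p + 1) := by
  classical
  obtain ⟨m, hm, hmB, hmax⟩ := exists_matching hf hp hdeg
  refine ⟨m, hm, ?_⟩
  have hle : minus G m ≤ G := fun _ _ h => h.1
  have hdG : ∀ v, dg G v = G.degree v := by
    intro v
    unfold dg
    rw [← card_neighborFinset_eq_degree]
    apply congrArg Finset.card
    ext w
    simp
  have hd1 : ∀ v, dg (minus G m) v ≤ p + 1 := by
    intro v
    have h1 := dg_mono hle v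
    rw [hdG] at h1
    exact h1.trans (hdeg v)
  have hd2 : ∀ v, dg (minus G m) v = p + 1 → m v = v := by
    intro v hv
    by_contra hne
    have h1 := (hm.2 v hne).1
    have h2 : (univ.filter fun w => (minus G m).Adj v w) ⊆ (G.neighborFinset v).erase (m v) := by
      intro w hw
      have h3 := (mem_filter.1 hw).2
      rw [mem_erase, mem_neighborFinset]
      exact ⟨fun h => h3.2.1 h.symm, h3.1⟩
    have h3 := card_le_card h2
    rw [card_erase_of_mem (by rwa [mem_neighborFinset]), card_neighborFinset_eq_degree] at h3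
    have h4 : (univ.filter fun w => (minus G m).Adj v w).card = p + 1 := by
      rw [← hv]
      unfold dg
      congr 1
    have h5 := hdeg v
    omega
  refine peel (by omega) hd1 ?_
  intro S hSne hS
  by_contra hcon
  push Not at hcon
  have hbad : Bad G p f S := by
    intro v hv
    obtain ⟨w, w', hw, hw', hvw, hvw', hne⟩ := hcon v hv
    have key : ∀ u ∈ S, (minus G m).Adj v u → u ∈ S.filter (Pa G p f v) := by
      intro u hu hvu
      rw [mem_filter]
      refine ⟨hu, hvu.1, ?_⟩
      by_contra h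
      push Not at h
      exact hmax v u hvu.1 (lt_of_le_of_ne (hf.1.1 v) h.1) (lt_of_le_of_ne (hf.1.1 u) h.2)
        (hd2 v (hS v hv)) (hd2 u (hS u hu))
    have h1 : ({w, w'} : Finset V) ⊆ S.filter (Pa G p f v) := by
      intro u hu
      rw [mem_insert, mem_singleton] at hu
      rcases hu with rfl | rfl
      · exact key _ hw hvw
      · exact key _ hw' hvw'
    have h2 := card_le_card h1
    rw [card_pair hne] at h2
    exact h2
  obtain ⟨v, hv, hmv⟩ := hmB S hSne hbad
  exact hmv (hd2 v (hS v hv))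

/-- a labelling with a function of two variables on the edges -/
def Lab (G : SimpleGraph V) (P l : ℕ) : Prop :=
  ∃ (a : V → ℕ) (c : V → V → ℕ),
    (∀ v, a v ≤ l) ∧ (∀ u v, G.Adj u v → c u v ≤ l) ∧ (∀ u v, G.Adj u v → c u v = c v u) ∧
    (∀ u v, G.Adj u v → a u ≠ a v) ∧
    (∀ u v w, G.Adj u v → G.Adj u w → v ≠ w → c u v ≠ c u w) ∧
    (∀ u v, G.Adj u v → a u + P ≤ c u v ∨ c u v + P ≤ a u)

/-- graphs without large cliques -/
theorem lab_free (G : SimpleGraph V) (p P : ℕ) (hp : 3 ≤ p)
    (hdeg : ∀ v, (G.neighborSet v).ncard ≤ p + 1) (hK : G.CliqueFree (p + 2)) :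
    Lab G P (2 * p + P) := by
  classical
  have hdeg' : ∀ v, G.degree v ≤ p + 1 := by
    intro v
    have := hdeg v
    rwa [Set.ncard_eq_toFinset_card', ← SimpleGraph.neighborFinset_def,
      SimpleGraph.card_neighborFinset_eq_degree] at this
  obtain ⟨c0, hc0⟩ := Brooks.brooks (d := p) (by omega) G (fun x => hdeg x) hK
  have hPC : PC G p (fun v => (c0 v : ℕ)) := by
    refine ⟨fun v => Nat.lt_succ_iff.1 (c0 v).2, fun u v huv h => hc0 u v huv (Fin.ext h)⟩
  obtain ⟨f, hf⟩ := exists_isMin hPC
  obtain ⟨m, hm, c, hc⟩ := class_one hf hp hdeg'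
  have hminus : ∀ u v, G.Adj u v → m u ≠ v → (minus G m).Adj u v := by
    intro u v huv h
    refine ⟨huv, h, fun h2 => h ?_⟩
    rw [← h2, hm.1 v]
  refine ⟨f, fun u v => if m u = v then P + p - 1 else P + p + c u v, ?_, ?_, ?_, hf.1.2, ?_, ?_⟩
  · intro v
    have := hf.1.1 v
    omega
  · intro u v huv
    by_cases h : m u = v
    · simp only [if_pos h]; omega
    · simp only [if_neg h]
      have := hc.lt u v (hminus u v huv h)
      omega
  · intro u v huv
    by_cases h : m u = v
    · have h' : m v = u := by rw [← h, hm.1 u]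
      simp only [if_pos h, if_pos h']
    · have h' : ¬ m v = u := fun h2 => h (by rw [← h2, hm.1 v])
      simp only [if_neg h, if_neg h']
      rw [hc.symm u v (hminus u v huv h)]
  · intro u v w huv huw hvw
    by_cases h : m u = v
    · have h' : ¬ m u = w := fun h2 => hvw (h.symm.trans h2)
      simp only [if_pos h, if_neg h']
      omega
    · by_cases h' : m u = w
      · simp only [if_neg h, if_pos h']
        omega
      · simp only [if_neg h, if_neg h']
        intro h2
        exact hvw (hc.inj u v w (hminus u v huv h) (hminus u w huw h') (by omega))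
  · intro u v huv
    left
    by_cases h : m u = v
    · simp only [if_pos h]
      have h2 : m u ≠ u := by
        rw [h]; exact huv.ne'
      have h3 := (hm.2 u h2).2.1
      omega
    · simp only [if_neg h]
      have := hf.1.1 u
      omega

/-- labels of the edges of a clique -/
def gK (p P i j : ℕ) : ℕ :=
  if i = p + 1 then P + j else if j = p + 1 then P + i else P + p + (i + j + 2) % (p + 1)

/-- labels of the vertices of a clique -/
def aK (p l i : ℕ) : ℕ := if i = p + 1 then l else i

lemma gK_symm (p P i j : ℕ) (h : i ≠ j) : gK p P i j = gK p P j i := by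
  unfold gK
  by_cases h1 : i = p + 1
  · have h2 : ¬ j = p + 1 := fun h2 => h (h1.trans h2.symm)
    rw [if_pos h1, if_neg h2, if_pos h1]
  · by_cases h2 : j = p + 1
    · rw [if_neg h1, if_pos h2, if_pos h2]
    · rw [if_neg h1, if_neg h2, if_neg h2, if_neg h1, add_comm i j]

lemma gK_le (p P i j : ℕ) (hi : i ≤ p + 1) (hj : j ≤ p + 1) (h : i ≠ j) :
    gK p P i j ≤ 2 * p + P := by
  unfold gK
  have := Nat.mod_lt (i + j + 2) (Nat.succ_pos p)
  simp only [Nat.succ_eq_add_one] at this
  split_ifs <;> omega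

lemma gK_inj (p P i j k : ℕ) (hi : i ≤ p + 1) (hj : j ≤ p + 1) (hk : k ≤ p + 1) (hij : i ≠ j)
    (hik : i ≠ k) (hjk : j ≠ k) : gK p P i j ≠ gK p P i k := by
  unfold gK
  by_cases h1 : i = p + 1
  · rw [if_pos h1, if_pos h1]; omega
  · rw [if_neg h1, if_neg h1]
    have aux : ∀ x, x ≤ p → x ≠ i → P + i ≠ P + p + (i + x + 2) % (p + 1) := by
      intro x hx hxi h
      have h2 : i = p := by omega
      subst h2
      have h3 : (i + x + 2) % (i + 1) = 0 := by omega
      have h4 : (i + x + 2) = (x + 1) + (i + 1) := by ring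
      rw [h4, Nat.add_mod_right, Nat.mod_eq_of_lt (by omega)] at h3
      omega
    by_cases h2 : j = p + 1
    · have h3 : ¬ k = p + 1 := fun h3 => hjk (h2.trans h3.symm)
      rw [if_pos h2, if_neg h3]
      exact aux k (by omega) (Ne.symm hik)
    · by_cases h3 : k = p + 1
      · rw [if_neg h2, if_pos h3]
        exact (aux j (by omega) (Ne.symm hij)).symm
      · rw [if_neg h2, if_neg h3]
        intro h4
        have h5 : (i + j + 2) % (p + 1) = (i + k + 2) % (p + 1) := by omega
        have h6 : (j + (i + 2)) ≡ (k + (i + 2)) [MOD (p + 1)] := by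
          unfold Nat.ModEq
          have e1 : j + (i + 2) = i + j + 2 := by ring
          have e2 : k + (i + 2) = i + k + 2 := by ring
          rw [e1, e2]; exact h5
        have h7 := Nat.ModEq.add_right_cancel' _ h6
        have h8 := Nat.ModEq.eq_of_lt_of_lt h7 (by omega) (by omega)
        exact hjk h8

lemma aK_le (p l i : ℕ) (hl : 2 * p ≤ l) (hi : i ≤ p + 1) : aK p l i ≤ l := by
  unfold aK; split_ifs <;> omega

lemma aK_inj (p l i j : ℕ) (hl : 2 * p ≤ l) (hp : 3 ≤ p) (hi : i ≤ p + 1) (hj : j ≤ p + 1)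
    (h : i ≠ j) : aK p l i ≠ aK p l j := by
  unfold aK; split_ifs <;> omega

lemma aK_gK (p P l i j : ℕ) (hl : p + 2 * P ≤ l) (hi : i ≤ p + 1) (hj : j ≤ p + 1) (h : i ≠ j) :
    aK p l i + P ≤ gK p P i j ∨ gK p P i j + P ≤ aK p l i := by
  unfold aK gK
  split_ifs <;> omega

lemma Lab.mono {G : SimpleGraph V} {P l l' : ℕ} (h : Lab G P l) (hl : l ≤ l') : Lab G P l' := by
  obtain ⟨a, c, h1, h2, h3, h4, h5, h6⟩ := h
  exact ⟨a, c, fun v => (h1 v).trans hl, fun u v huv => (h2 u v huv).trans hl, h3, h4, h5, h6⟩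

/-- **Main theorem** in the form with functions. -/
theorem lab_all (G : SimpleGraph V) (p P l : ℕ) (hp : 3 ≤ p)
    (hdeg : ∀ v, (G.neighborSet v).ncard ≤ p + 1) (hl : 2 * p + P ≤ l)
    (hP : p + 2 * P ≤ l ∨ G.CliqueFree (p + 2)) :
    Lab G P l := by
  classical
  by_cases hK : G.CliqueFree (p + 2)
  · exact (lab_free G p P hp hdeg hK).mono hl
  have hPp : p + 2 * P ≤ l := by
    rcases hP with h | h
    · exact h
    · exact absurd h hK
  have hdeg' : ∀ v, G.degree v ≤ p + 1 := by
    intro v
    have := hdeg v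
    rwa [Set.ncard_eq_toFinset_card', ← SimpleGraph.neighborFinset_def,
      SimpleGraph.card_neighborFinset_eq_degree] at this
  -- the vertices of cliques
  let W : V → Prop := fun v => ∃ s : Finset V, G.IsNClique (p + 2) s ∧ v ∈ s
  have hclq : ∀ s : Finset V, G.IsNClique (p + 2) s → ∀ v ∈ s, ∀ u, G.Adj v u → u ∈ s := by
    intro s hs v hv u hu
    by_contra hus
    have h1 : insert u (s.erase v) ⊆ G.neighborFinset v := by
      intro w hw
      rw [mem_insert, mem_erase] at hw
      rw [mem_neighborFinset]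
      rcases hw with rfl | hw
      · exact hu
      · exact hs.1 hv hw.2 (Ne.symm hw.1)
    have h2 := card_le_card h1
    rw [card_insert_of_notMem (fun h => hus (mem_erase.1 h).2), card_erase_of_mem hv, hs.2,
      card_neighborFinset_eq_degree] at h2
    have := hdeg' v
    omega
  have hW1 : ∀ u v, G.Adj u v → W u → W v := by
    rintro u v huv ⟨s, hs, hus⟩
    exact ⟨s, hs, hclq s hs u hus v huv⟩
  have hW2 : ∀ u v w, W u → G.Adj u v → G.Adj u w → v ≠ w → G.Adj v w := by
    rintro u v w ⟨s, hs, hus⟩ huv huw hvw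
    exact hs.1 (hclq s hs u hus v huv) (hclq s hs u hus w huw) hvw
  -- the rest
  let G1 : SimpleGraph V := {
    Adj := fun u v => G.Adj u v ∧ ¬ W u ∧ ¬ W v
    symm := ⟨fun u v h => ⟨h.1.symm, h.2.2, h.2.1⟩⟩
    loopless := ⟨fun v h => G.irrefl h.1⟩ }
  have hG1 : ∀ u v, G1.Adj u v ↔ G.Adj u v ∧ ¬ W u ∧ ¬ W v := fun _ _ => Iff.rfl
  have hG1le : G1 ≤ G := fun u v h => h.1
  have hfree : G1.CliqueFree (p + 2) := by
    intro s hs
    obtain ⟨x, hx, y, hy, hxy⟩ : ∃ x ∈ s, ∃ y ∈ s, x ≠ y := by
      have : 1 < s.card := by rw [hs.2]; omega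
      obtain ⟨x, y, hx, hy, hxy⟩ := Finset.one_lt_card_iff.1 this
      exact ⟨x, hx, y, hy, hxy⟩
    exact (hs.1 hx hy hxy).2.1 ⟨s, hs.mono hG1le, hx⟩
  have hdeg1 : ∀ v, (G1.neighborSet v).ncard ≤ p + 1 := by
    intro v
    refine le_trans ?_ (hdeg v)
    exact Set.ncard_le_ncard (fun w hw => hG1le hw) (Set.toFinite _)
  obtain ⟨a, c, h1, h2, h3, h4, h5, h6⟩ := (lab_free G1 p P hp hdeg1 hfree).mono hl
  -- the index of a vertex in its clique
  let e : V → ℕ := fun v => (Fintype.equivFin V v : ℕ)
  have he : ∀ u v, e u = e v → u = v := by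
    intro u v h
    exact (Fintype.equivFin V).injective (Fin.ext h)
  let idx : V → ℕ := fun v => (univ.filter (fun w => G.Adj v w ∧ e w < e v)).card
  have hidx : ∀ v, idx v ≤ p + 1 := by
    intro v
    refine le_trans (card_le_card ?_) (hdeg' v)
    intro w hw
    rw [mem_neighborFinset]
    exact (mem_filter.1 hw).2.1
  have hidx1 : ∀ u v, G.Adj u v → W u → e u < e v → idx u < idx v := by
    intro u v huv hu he'
    apply card_lt_card
    rw [Finset.ssubset_iff_of_subset]
    · refine ⟨u, mem_filter.2 ⟨mem_univ _, huv.symm, he'⟩, fun h => ?_⟩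
      exact G.irrefl (mem_filter.1 h).2.1
    · intro w hw
      obtain ⟨-, w1, w2⟩ := mem_filter.1 hw
      refine mem_filter.2 ⟨mem_univ _, ?_, by omega⟩
      apply hW2 u v w hu huv w1
      rintro rfl
      omega
  have hidx2 : ∀ u v, G.Adj u v → W u → idx u ≠ idx v := by
    intro u v huv hu
    rcases lt_trichotomy (e u) (e v) with h | h | h
    · exact (hidx1 u v huv hu h).ne
    · exact absurd (he u v h) huv.ne
    · exact (hidx1 v u huv.symm (hW1 u v huv hu) h).ne'
  refine ⟨fun v => if W v then aK p l (idx v) else a v,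
    fun u v => if W u then gK p P (idx u) (idx v) else c u v, ?_, ?_, ?_, ?_, ?_, ?_⟩
  · intro v
    by_cases hv : W v
    · simp only [if_pos hv]; exact aK_le p l _ (by omega) (hidx v)
    · simp only [if_neg hv]; exact h1 v
  · intro u v huv
    by_cases hu : W u
    · simp only [if_pos hu]; exact (gK_le p P _ _ (hidx u) (hidx v) (hidx2 u v huv hu)).trans hl
    · simp only [if_neg hu]
      exact h2 u v ⟨huv, hu, fun hv => hu (hW1 v u huv.symm hv)⟩
  · intro u v huv
    by_cases hu : W u
    · have hv := hW1 u v huv hu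
      simp only [if_pos hu, if_pos hv]
      exact gK_symm p P _ _ (hidx2 u v huv hu)
    · have hv : ¬ W v := fun hv => hu (hW1 v u huv.symm hv)
      simp only [if_neg hu, if_neg hv]
      exact h3 u v ⟨huv, hu, hv⟩
  · intro u v huv
    by_cases hu : W u
    · have hv := hW1 u v huv hu
      simp only [if_pos hu, if_pos hv]
      exact aK_inj p l _ _ (by omega) hp (hidx u) (hidx v) (hidx2 u v huv hu)
    · have hv : ¬ W v := fun hv => hu (hW1 v u huv.symm hv)
      simp only [if_neg hu, if_neg hv]
      exact h4 u v ⟨huv, hu, hv⟩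
  · intro u v w huv huw hvw
    by_cases hu : W u
    · simp only [if_pos hu]
      have hv := hW1 u v huv hu
      exact gK_inj p P _ _ _ (hidx u) (hidx v) (hidx w) (hidx2 u v huv hu) (hidx2 u w huw hu)
        (hidx2 v w (hW2 u v w hu huv huw hvw) hv)
    · simp only [if_neg hu]
      exact h5 u v w ⟨huv, hu, fun hv => hu (hW1 v u huv.symm hv)⟩
        ⟨huw, hu, fun hw => hu (hW1 w u huw.symm hw)⟩ hvw
  · intro u v huv
    by_cases hu : W u
    · simp only [if_pos hu]
      exact aK_gK p P l _ _ hPp (hidx u) (hidx v) (hidx2 u v huv hu)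
    · simp only [if_neg hu]
      exact h6 u v ⟨huv, hu, fun hv => hu (hW1 v u huv.symm hv)⟩

end Pool.Agent.H85A
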